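import Pool.Agent.Run7.h709.GA.Mid

/-!
# The proper Singer property for all groups which are virtually subgroups of explicit right-angled Coxeter groups

Let `Λ` be a group which acts properly and cocompactly on a contractible manifold `M` of dimension `n` without
boundary, more generally on a complex `A` (`Cplx`: the cells of `A` have finite stabilizers and form finitely many
orbits, `Λ` preserves the incidence numbers, for example on a barycentric subdivision) which has the homology of a point
(`Acyclic`) and the cohomology with compact supports of `ℝ^n` (`Duality`; the elements of `Λ` may reverse the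
orientation). `A.harm` are the square-summable harmonic chains, which represent the reduced `L²`-homology, and
`A.betti i` is their von Neumann dimension in the degree `i`.

We assume that `Λ` is, up to finite kernels and finite index, a subgroup of a right-angled Coxeter group `W G`
(`VirtSub`): some subgroup `K` of `W G`, of finite or infinite index, has a homomorphism with finite kernel onto a
subgroup of finite index of `Λ`. We show that `A.betti i = 0` for all `i ≠ n / 2` if `n ≥ 2 b`, and for all `i` if
`n > 2 b`, for the following graphs `G`:

* the set of all the vertices of `G` is in the class `AC G (b + 1)`;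
* `b = d`, `G` is obtained from a simplicial complex `X` in the sphere of dimension `2 d`, with vertices coloured by
  `d + 1` colours and without monochromatic triangles, by subdividing the monochromatic edges;
* `b = m`, `G` is the join of `m` graphs which are `2`-degenerate;
* `b = m`, `G` is the graph of the barycentric subdivision of any complex `X` of dimension at most `2 m - 1`, `m ≤ 3`, or
  a colourwise subdivision, with simplices of at most six vertices in one colour and at most two vertices in the other
  colours, `m` the sum of the halves of these numbers;
* `b = d ≤ 2`, `G` is the graph of the barycentric subdivision of a complex in the sphere of dimension `2 d`, or a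
  colourwise subdivision.

The dimension `n` is determined by `Λ` (it is its virtual cohomological dimension), so all these groups with `n ≥ 2 b`
have the proper Singer property as far as (triangulated) manifolds are concerned. The nerve of `W G` need not be
related to a manifold, `Λ` can have torsion, and it is in general of infinite index in `W G` up to
commensurability.

Outline. See `MP_ea75ba_gt.VirtualReflectionSubgroups` for the vanishing in the degrees `> b`: the resolution given by
the cells of `A` for a torsion free subgroup of finite index, and our vanishing theorem for all the subgroups of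
`W G`. For the degrees `< n - b` the same argument is applied to the complex of the finite cochains of `A`, which by
`Duality` is a resolution for the subgroup preserving the orientation (`GA.dual_harm`).
-/

set_option autoImplicit false

namespace Pool.Agent.Results.MP_cddda8_gt.ProperSingerVirtual

open Pool.Agent.W907.SG Pool.Agent.W461.SGN Pool.Agent.N496.CV Pool.Agent.R782.Bal Run7.h709.AC Run7.h709.GA
open Pool.Agent.Run7.h604.HK (Cplx)

/-- For every acyclic complex `A` (cocompact, with finite stabilizers) with the Poincaré duality of a contractible
manifold of dimension `n ≥ 2 b` without boundary, whose group is virtually, up to finite kernels, a subgroup of `W G`: the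
`L²`-Betti numbers in the degrees `i ≠ n / 2` vanish, and the square-summable harmonic chains are zero on the cells of
these dimensions; and for `n > 2 b` the same is true for all degrees. -/
def Singer {V : Type} [Fintype V] [LinearOrder V] (G : SimpleGraph V) (b : ℕ) : Prop :=
  ∀ (A : Cplx) (n : ℕ), Acyclic A → Duality A n → VirtSub A G → 2 * b ≤ n →
    ∀ i : ℕ, (2 * i ≠ n ∨ 2 * b < n) → A.betti i = 0 ∧ ∀ f ∈ A.harm, ∀ x : A.X, A.deg x = i → f x = 0

theorem singer {V : Type} [Fintype V] [LinearOrder V] (G : SimpleGraph V) {b : ℕ} (h : AC G (b + 1) Set.univ) :
    Singer G b := by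
  intro A n hA hD hv hn i hi
  have key : ∀ f ∈ A.harm, ∀ x : A.X, A.deg x = i → f x = 0 := by
    intro f hf x hx
    rcases hi with hi | hi
    · exact mid_harm h hA hD hv (by omega) f hf x (by rw [hx]; exact hi)
    · exact all_harm h hA hD hv (by omega) f hf x
  exact ⟨betti_of_harm A i key, key⟩

/-- `X` is a simplicial complex, and each simplex of `X` all of whose vertices have the colour `c` has at most
`2 a c` vertices. -/
def Bounded {N n : ℕ} (X : Finset (Finset (Fin N))) (col : Fin N → Fin n) (a : Fin n → ℕ) : Prop :=
  (∀ σ ∈ X, ∀ τ : Finset (Fin N), τ ⊆ σ → τ ∈ X) ∧
    ∀ σ ∈ X, ∀ c, (∀ v ∈ σ, col v = c) → σ.card ≤ 2 * a c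

/-- The `L²`-Betti numbers in the degrees `i ≠ n / 2` (for `n > 2 b` in all degrees) vanish for all the actions on
contractible manifolds of dimension `n ≥ 2 b` without boundary of the groups which are, up to finite kernels and finite
index, subgroups (of arbitrary index) of `W G` (`Singer G b`): (1) if the set of all vertices of the finite graph `G` is
in the class `AC G (b + 1)`; (2) for `b = d` if `G` is obtained from a simplicial complex `X` embedded in the sphere of
dimension `2 d`, with vertices coloured by `d + 1` colours and without monochromatic triangles, by subdividing the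
monochromatic edges; (3) for `b = m` if `G` is the join of `m` graphs which are `2`-degenerate; (4) for `b = ∑ a c` if
`G` is the graph of the colourwise barycentric subdivision (with one colour: the barycentric subdivision) of a finite
simplicial complex `X` with coloured vertices such that the simplices with all the vertices of the colour `c` have at
most `2 a c` vertices, `a c₀ ≤ 3` for one colour `c₀`, `a c ≤ 1` for the others; (5) for `b = d` if `G` is such a
subdivision, `d ≤ 2`, `∑ a c ≤ d + 1`, and `X` is of dimension at most `2 d` and embedded in the sphere of dimension
`2 d`. -/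
theorem result :
    (∀ (b : ℕ) (V : Type) [Fintype V] [LinearOrder V] (G : SimpleGraph V), AC G (b + 1) Set.univ → Singer G b) ∧
    (∀ (d N : ℕ) (X : Finset (Finset (Fin N))) (col : Fin N → Fin (d + 1)),
      (∀ σ ∈ X, ∀ τ : Finset (Fin N), τ ⊆ σ → τ ∈ X) →
      (∀ σ ∈ X, (∀ v ∈ σ, ∀ w ∈ σ, col v = col w) → σ.card ≤ 2) → EmbX d X col →
      ∀ [Fintype (MF X col)] [LinearOrder (MF X col)], Singer (cs X col) d) ∧
    (∀ (m : ℕ) (V : Type) [Fintype V] [LinearOrder V] (G : SimpleGraph V) (p : V → Fin m),
      (∀ u v, p u ≠ p v → G.Adj u v) → (∀ i, Deg2 G p i) → Singer G m) ∧
    (∀ (N n : ℕ) (X : Finset (Finset (Fin N))) (col : Fin N → Fin n) (a : Fin n → ℕ) (c₀ : Fin n),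
      Bounded X col a → a c₀ ≤ 3 → (∀ c, c ≠ c₀ → a c ≤ 1) →
      ∀ [Fintype (MF X col)] [LinearOrder (MF X col)], Singer (cs X col) (∑ c, a c)) ∧
    (∀ (N n d : ℕ) (X : Finset (Finset (Fin N))) (col : Fin N → Fin n) (a : Fin n → ℕ),
      Bounded X col a → d ≤ 2 → ∑ c, a c ≤ d + 1 → (∀ σ ∈ X, σ.card ≤ 2 * d + 1) → EmbX d X col →
      ∀ [Fintype (MF X col)] [LinearOrder (MF X col)], Singer (cs X col) d) := by
  refine ⟨?_, ?_, ?_, ?_, ?_⟩
  · intro b V _ _ G h
    exact singer G h
  · intro d N X col hX ht hE _ _
    exact singer _ (ac_cs hX ht hE)
  · intro m V _ _ G p hp hd
    exact singer G (ac_joins p hp hd)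
  · intro N n X col a c₀ hX h3 h1 _ _
    exact singer _ (ac_bary hX.1 a c₀ h3 h1 hX.2)
  · intro N n d X col a hX hd hsum hdim hE _ _
    exact singer _ (ac_bary_emb hX.1 a d hd hsum hX.2 hdim (hE.emb hX.1).obs)

end Pool.Agent.Results.MP_cddda8_gt.ProperSingerVirtual
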